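import Pool.Agent.Y477.Pat

set_option autoImplicit false

/-! Quadratic forms over the integral group ring of a torsion-free group obtained by plumbing
arbitrary integral forms along a pattern of operator norm less than `3 / √2` are orthogonal sums
of forms induced from cyclic subgroups. -/

namespace Pool.Agent.Results.MP_98022b_gt.PlumbingBelowThreshold

open TH57.Thr TH6.LF Matrix

theorem result (Γ : Type) [Group Γ]
    (htf : ∀ g : Γ, ∀ k : ℕ, 0 < k → g ^ k = 1 → g = 1) (ε : ℤ) (hε : ε = 1 ∨ ε = -1)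
    (c : ℝ) (hc0 : 0 < c) (hc : c ^ 2 < 9 / 2)
    (n m : ℕ) (p : Fin n → Fin m) (Q : Matrix (Fin m) (Fin m) (MonoidAlgebra ℤ Γ))
    (hQs : ∀ a b h, (Q a b).coeff h ≠ 0 → (Q b a).coeff h⁻¹ ≠ 0) (hQ : NormLE Q c)
    (ψ : Matrix (Fin n) (Fin n) (MonoidAlgebra ℤ Γ))
    (hψ : ∀ i j h, ((ψ + ε • adj ψ) i j).coeff h ≠ 0 →
      (p i = p j ∧ h = 1) ∨ (Q (p i) (p j)).coeff h ≠ 0) :
    ∃ (ρ : Fin n → Fin n) (u : Fin n → Γ) (C : Fin n → Subgroup Γ)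
      (θ : ∀ a, Matrix {i // ρ i = a} {i // ρ i = a} (MonoidAlgebra ℤ (C a)))
      (χ : Matrix (Fin n) (Fin n) (MonoidAlgebra ℤ Γ)),
      (∀ a, IsCyclic (C a)) ∧
      Dm u * ψ * adj (Dm u) = indSum ρ C θ + (χ - ε • adj χ) ∧
      (IsUnit (ψ + ε • adj ψ) → ∀ a, IsUnit (θ a + ε • adj (θ a))) := by
  obtain ⟨ρ, u, C, hC, hstr⟩ := Pool.Agent.Y477.pattern_structure htf c hc0 hc p Q hQs hQ
  obtain ⟨θ, χ, h1, h2⟩ := Pool.Agent.Y477.forms_of_structure htf ε hε ψ ρ u C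
    fun i j h hne => hstr i j h (hψ i j h hne)
  exact ⟨ρ, u, C, θ, χ, hC, h1, h2⟩

end Pool.Agent.Results.MP_98022b_gt.PlumbingBelowThreshold
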